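import Pool.Agent.H998.LT.Defs2

set_option autoImplicit false

/-! Bounded density of products with the integers, pigeonhole in the plane, the dual basis. -/

open MeasureTheory Real

namespace Pool.Agent.H190.LT

open Pool.Agent.H998.LT Matrix

theorem t_bddstep : S_bddstep := by
  intro d Λ ⟨M, hM⟩
  refine ⟨M + M, fun x => ?_⟩
  have hsub : up Λ ∩ {y | ∑ i, (y i - x i) ^ 2 < 1} ⊆
      (fun v : Fin d → ℝ => (Fin.cons ((⌊x 0⌋ : ℤ) : ℝ) v : Fin (d + 1) → ℝ)) ''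
        (Λ ∩ {y | ∑ i, (y i - Fin.tail x i) ^ 2 < 1}) ∪
      (fun v : Fin d → ℝ => (Fin.cons ((⌊x 0⌋ + 1 : ℤ) : ℝ) v : Fin (d + 1) → ℝ)) ''
        (Λ ∩ {y | ∑ i, (y i - Fin.tail x i) ^ 2 < 1}) := by
    rintro y ⟨⟨hy1, n, hn⟩, hy2⟩
    have hy2' : ∑ i, (y i - x i) ^ 2 < 1 := hy2
    rw [Fin.sum_univ_succ] at hy2'
    have h0 : 0 ≤ ∑ i : Fin d, (y i.succ - x i.succ) ^ 2 := Finset.sum_nonneg fun i _ => sq_nonneg _
    have h1 : (y 0 - x 0) ^ 2 < 1 := by linarith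
    have h2 : ∑ i, (Fin.tail y i - Fin.tail x i) ^ 2 < 1 := by
      have : ∑ i, (Fin.tail y i - Fin.tail x i) ^ 2 = ∑ i : Fin d, (y i.succ - x i.succ) ^ 2 := rfl
      rw [this]
      have := sq_nonneg (y 0 - x 0)
      linarith
    have h3 : |y 0 - x 0| < 1 := by
      rw [← sq_lt_one_iff_abs_lt_one]
      exact h1
    rw [abs_lt, hn] at h3
    have h4 := Int.floor_le (x 0)
    have h5 := Int.lt_floor_add_one (x 0)
    have h6 : n = ⌊x 0⌋ ∨ n = ⌊x 0⌋ + 1 := by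
      have h7 : (⌊x 0⌋ : ℝ) - 1 < n := by linarith [h3.1]
      have h8 : (n : ℝ) < ⌊x 0⌋ + 1 + 1 := by linarith [h3.2]
      have h9 : ⌊x 0⌋ - 1 < n := by exact_mod_cast h7
      have h10 : n < ⌊x 0⌋ + 1 + 1 := by exact_mod_cast h8
      omega
    have h11 : y = Fin.cons (n : ℝ) (Fin.tail y) := by
      rw [← hn, Fin.cons_self_tail]
    rcases h6 with h6 | h6
    · left
      refine ⟨Fin.tail y, ⟨hy1, h2⟩, ?_⟩
      show (Fin.cons ((⌊x 0⌋ : ℤ) : ℝ) (Fin.tail y) : Fin (d + 1) → ℝ) = y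
      rw [← h6]
      exact h11.symm
    · right
      refine ⟨Fin.tail y, ⟨hy1, h2⟩, ?_⟩
      show (Fin.cons ((⌊x 0⌋ + 1 : ℤ) : ℝ) (Fin.tail y) : Fin (d + 1) → ℝ) = y
      rw [← h6]
      exact h11.symm
  refine (Set.encard_le_encard hsub).trans ((Set.encard_union_le _ _).trans ?_)
  push_cast
  exact add_le_add ((Set.encard_image_le _ _).trans (hM _)) ((Set.encard_image_le _ _).trans (hM _))

theorem exists_pq (s t : ℝ) : ∃ p q : ℤ, (p ≠ 0 ∨ q ≠ 0) ∧ |p * s + q * t| < 1 / 4 := by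
  by_cases ht : t = 0
  · exact ⟨0, 1, Or.inr one_ne_zero, by rw [ht]; norm_num⟩
  · obtain ⟨n, hn⟩ := exists_nat_gt (4 * |t|)
    have ht0 : 0 < |t| := abs_pos.2 ht
    have hn0 : 0 < n := by
      have : (0 : ℝ) < n := lt_of_le_of_lt (by positivity) hn
      exact_mod_cast this
    obtain ⟨j, k, hk, -, hle⟩ := Real.exists_int_int_abs_mul_sub_le (s / t) hn0
    refine ⟨k, -j, Or.inl hk.ne', ?_⟩
    have h1 : (k : ℝ) * s + ((-j : ℤ) : ℝ) * t = (k * (s / t) - j) * t := by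
      push_cast
      field_simp
      ring
    rw [h1, abs_mul]
    have hn1 : (0 : ℝ) < (n : ℝ) + 1 := by positivity
    calc |↑k * (s / t) - ↑j| * |t| ≤ 1 / (n + 1) * |t| :=
          mul_le_mul_of_nonneg_right hle (abs_nonneg _)
      _ < 1 / 4 := by
        rw [div_mul_eq_mul_div, one_mul, div_lt_div_iff₀ hn1 (by norm_num)]
        linarith

theorem t_pigeon2 : S_pigeon2 := by
  intro b _
  obtain ⟨p, q, hpq, h⟩ := exists_pq (b 0 0) (b 1 0)
  refine ⟨![p, q], ?_, ?_⟩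
  · intro h0
    have h1 := congrFun h0 0
    have h2 := congrFun h0 1
    simp at h1 h2
    rcases hpq with h3 | h3
    · exact h3 h1
    · exact h3 h2
  · simpa [Fin.sum_univ_two] using h

theorem t_dualbasis : S_dualbasis := by
  intro d A hA
  have hu : IsUnit A.det := isUnit_iff_ne_zero.2 hA
  refine ⟨fun j => A⁻¹ j, ?_, fun y z => ⟨∑ j, y j * z j, ?_⟩⟩
  · have h1 : IsUnit A⁻¹ := by
      rw [Matrix.isUnit_iff_isUnit_det]
      exact Matrix.isUnit_nonsing_inv_det A hu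
    exact Matrix.linearIndependent_rows_of_isUnit h1
  · have h1 : (∑ j, (y j : ℝ) • A⁻¹ j) = (fun j => (y j : ℝ)) ᵥ* A⁻¹ := by
      funext i
      simp [Matrix.vecMul, dotProduct, Finset.sum_apply]
    show ∑ i, (∑ j, (y j : ℝ) • A⁻¹ j) i * (A.mulVec (fun i => (z i : ℝ))) i = _
    rw [h1]
    have h2 : ∑ i, ((fun j => (y j : ℝ)) ᵥ* A⁻¹) i * (A.mulVec (fun i => (z i : ℝ))) i =
        ((fun j => (y j : ℝ)) ᵥ* A⁻¹) ⬝ᵥ (A *ᵥ (fun i => (z i : ℝ))) := rfl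
    rw [h2, Matrix.dotProduct_mulVec, Matrix.vecMul_vecMul, Matrix.nonsing_inv_mul A hu,
      Matrix.vecMul_one]
    simp [dotProduct]

end Pool.Agent.H190.LT
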